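import Pool.Agent.TH964.HC.Pair

/-!
MP_356f68_co (transversals in Latin hypercubes): odd dimension, transversals in the products of an
arbitrary Latin hypercube with groups and with compositions of Latin squares of large order.

The definitions used:

* `IsHyper L` (`Pool/Agent/TH964/HC/Wt.lean`): `L : (Fin d → R) → S` takes every symbol exactly once
  along every line, that is, `a ↦ L (Function.update x j a)` is bijective for all `x` and `j`;
* `HasTransversalH L` (same file): there are cells `T i`, `i ∈ R`, such that `i ↦ T i j` is
  bijective for every coordinate `j` and `i ↦ L (T i)` is bijective;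
* `comp A k x` (`Pool/Agent/TH964/HC/Pair.lean`): the iterated composition, `comp A 0 x = x 0` and
  `comp A (k + 1) x = A k (comp A k (x 0, …, x k)) (x (k + 1))`;
* `IsLatin A` (`Pool/Agent/TH964/HP/Ext.lean`): `y ↦ A x y` and `x ↦ A x y` are bijective.

`(List.ofFn (fun k => (x k).2)).prod` is the ordered product of the second components in `G`.

Sketch of the proof. In odd dimension there is no obstruction: there are integral weights on the
cells of `L` with all class sums one, so for all large `m` nonnegative weights with all class sums
`m`. Take the cells with these multiplicities. Pair the first with the second coordinate, the third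
with the fourth, …, the last coordinate with the symbol; König's theorem labels the cells so that
for every pair both members together with the label run through all possibilities exactly once. The
second components are chosen such that those of a pair of coordinates cancel.
-/

set_option autoImplicit false

namespace Pool.Agent.Results.MP_356f68_co.OddDimension

open TH964.HC TH964.HP

/-- For every odd `d = 2 * e + 1 ≥ 3` and every `n` there is `m₀` such that the product of every
Latin hypercube of dimension `d` and order `n` with every group of order at least `m₀`, and with
every iterated composition of Latin squares of order at least `m₀`, is a Latin hypercube and has a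
transversal. -/
theorem result (e n : ℕ) (he : 1 ≤ e) : ∃ m₀ : ℕ,
    ∀ L : (Fin (2 * e + 1) → Fin n) → Fin n, IsHyper L →
      (∀ (G : Type) [Group G] [Finite G], m₀ ≤ Nat.card G →
        IsHyper (fun x : Fin (2 * e + 1) → Fin n × G => (L (fun k => (x k).1),
          (List.ofFn (fun k => (x k).2)).prod)) ∧
        HasTransversalH (fun x : Fin (2 * e + 1) → Fin n × G => (L (fun k => (x k).1),
          (List.ofFn (fun k => (x k).2)).prod))) ∧
      (∀ (S : Type) [Finite S] (A : ℕ → S → S → S), (∀ k, IsLatin (A k)) → m₀ ≤ Nat.card S →
        IsHyper (fun x : Fin (2 * e + 1) → Fin n × S => (L (fun k => (x k).1),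
          comp A (2 * e) (fun k => (x k).2))) ∧
        HasTransversalH (fun x : Fin (2 * e + 1) → Fin n × S => (L (fun k => (x k).1),
          comp A (2 * e) (fun k => (x k).2)))) := by
  obtain ⟨m₀, h⟩ := comp_main e n he
  have key : ∀ L : (Fin (2 * e + 1) → Fin n) → Fin n, IsHyper L →
      (∀ (S : Type) [Finite S] (A : ℕ → S → S → S), (∀ k, IsLatin (A k)) → m₀ ≤ Nat.card S →
        IsHyper (fun x : Fin (2 * e + 1) → Fin n × S => (L (fun k => (x k).1),
          comp A (2 * e) (fun k => (x k).2))) ∧
        HasTransversalH (fun x : Fin (2 * e + 1) → Fin n × S => (L (fun k => (x k).1),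
          comp A (2 * e) (fun k => (x k).2)))) :=
    fun L hL S _ A hA hS => ⟨isHyper_mul L hL _ (comp_isHyper A hA _), h L hL S A hA hS⟩
  refine ⟨m₀, fun L hL => ⟨fun G _ _ hG => ?_, key L hL⟩⟩
  have := key L hL G (fun _ x y => x * y) (fun _ =>
    ⟨fun x => (Equiv.mulLeft x).bijective, fun y => (Equiv.mulRight y).bijective⟩) hG
  simpa only [comp_mul] using this

end Pool.Agent.Results.MP_356f68_co.OddDimension
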