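import Pool.Agent.TH964.HC.Build

/-!
MP_356f68_co (transversals in Latin hypercubes): transversals in the affine extensions of an
arbitrary Latin hypercube by finite abelian groups.

The definitions used, from `Pool/Agent/TH964/HC/Wt.lean`:

* `IsHyper L`: `L : (Fin d → R) → S` takes every symbol exactly once along every line, that is,
  `a ↦ L (Function.update x j a)` is bijective for all `x` and `j`;
* `HasTransversalH L`: there are cells `T i`, `i ∈ R`, such that `i ↦ T i j` is bijective for every
  coordinate `j` and `i ↦ L (T i)` is bijective.

Sketch of the proof. If `d` or `n` is odd there is no obstruction, so there are integral weights on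
the cells of `L` whose sum over every line class (all cells with a given value of a coordinate, or
with a given symbol) is one; hence for all large `m` there are nonnegative weights with all sums
equal to `m`. Write `G` as `U × A` with a surjection `U → A` and `|A|` large, take a multiset of
cells of `L` with all class sums `|A|`, label its members by `A` in every class, and let `U` act
on them: the components in `A` are corrected by the images of those in `U`.
-/

set_option autoImplicit false

namespace Pool.Agent.Results.MP_356f68_co.ProductHypercubes

open TH964.HC

/-- For all `d ≥ 2` and `n`, one of them odd, there is `m₀` such that all affine extensions of all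
Latin hypercubes `L` of dimension `d` and order `n` by finite abelian groups `G` with
`m₀ * exp G ≤ |G|` (with `|G|` odd if `d` is even) are Latin hypercubes with a transversal. -/
theorem result (d n : ℕ) (hd : 2 ≤ d) (hdn : Odd d ∨ Odd n) : ∃ m₀ : ℕ,
    ∀ L : (Fin d → Fin n) → Fin n, IsHyper L →
      ∀ (G : Type) [AddCommGroup G] [Finite G] (a : Fin d → (Fin d → Fin n) → ℕ)
        (θ : (Fin d → Fin n) → G), (Odd d ∨ Odd (Nat.card G)) →
        (∀ k c, (Nat.card G).Coprime (a k c)) → m₀ * AddMonoid.exponent G ≤ Nat.card G →
        IsHyper (fun x : Fin d → Fin n × G => (L (fun k => (x k).1),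
          ∑ k, a k (fun k => (x k).1) • (x k).2 + θ (fun k => (x k).1))) ∧
        HasTransversalH (fun x : Fin d → Fin n × G => (L (fun k => (x k).1),
          ∑ k, a k (fun k => (x k).1) • (x k).2 + θ (fun k => (x k).1))) := by
  obtain ⟨m₀, h⟩ := main d n hd hdn
  exact ⟨m₀, fun L hL G _ _ a θ hodd ha hG =>
    ⟨isHyper_ext L hL G a θ ha, h L hL G a θ hodd ha hG⟩⟩

end Pool.Agent.Results.MP_356f68_co.ProductHypercubes
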