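import Pool.Agent.TH964.HC.Sv

/-!
MP_356f68_co (transversals in Latin hypercubes): even dimension and odd order, transversals in the
products of an arbitrary Latin hypercube with solvable groups of almost all odd orders, and with
groups which have the additive group of a suitable finite field as a normal subquotient.

The definitions used:

* `IsHyper L` (`Pool/Agent/TH964/HC/Wt.lean`): `L : (Fin d → R) → S` takes every symbol exactly once
  along every line, that is, `a ↦ L (Function.update x j a)` is bijective for all `x` and `j`;
* `HasTransversalH L` (same file): there are cells `T i`, `i ∈ R`, such that `i ↦ T i j` is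
  bijective for every coordinate `j` and `i ↦ L (T i)` is bijective;
* `HasTransversal P` (`Pool/Agent/TH964/HP/Ext.lean`), used only for `fun x y : Q => x * y`, `Q` a
  group: there is a bijection `σ` such that `x ↦ x * σ x` is bijective (a complete mapping).

`(List.ofFn (fun k => (x k).2)).prod` is the ordered product of the second components in `G`.

Sketch of the proof. As `n` is odd there is no obstruction, so there are integral weights on
the cells of `L` with all class sums one (`Wt.lean`). Let `H` be the subgroup of index `e` of the
multiplicative group of `F`. A body covers all lines with a nonzero second coordinate by pieces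
`x ↦ (m₁ x, …, m_d x, (m₁ + … + m_d) x)`, `x` in a coset of `H`, where the multipliers exist by a
character sum estimate; an absorber made of cells in general position (`Tk.lean`, `En.lean`), which
is planted in the body, is exchanged against cells which cover the lines with second coordinate zero
too (`Bd.lean`). Passage to groups with a normal subgroup, from a quotient to the group, and almost
all orders: `Fn.lean`, `Elem.lean`, `Sv.lean`.
-/

set_option autoImplicit false

namespace Pool.Agent.Results.MP_356f68_co.SolvableProducts

open TH964.HC TH964.HP

/-- Let `d` be even and `n` odd. For all odd `m` outside a set of density zero the product of any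
Latin hypercube of dimension `d` and order `n` with any solvable group of order `m` has a
transversal. Further there is `e₀` such that for all Latin hypercubes `L` of dimension `d` and order
`n` the products with groups are Latin hypercubes, and have transversals for all solvable groups
of odd order divisible by a good prime, and for all groups with a suitable normal subquotient
isomorphic to the additive group of a good finite field. -/
theorem result (d n : ℕ) (hd : 2 ≤ d) (hde : Even d) (hn : Odd n) :
    (∀ ε : ℝ, 0 < ε → ∃ X₀ : ℕ, ∀ X ≥ X₀,
      ({m : ℕ | m < X ∧ Odd m ∧ ∃ (G : Type) (_ : Group G) (_ : Finite G)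
        (L : (Fin d → Fin n) → Fin n), Group.IsSolvable G ∧ Nat.card G = m ∧ IsHyper L ∧
        ¬ HasTransversalH (fun x : Fin d → Fin n × G => (L (fun k => (x k).1),
          (List.ofFn (fun k => (x k).2)).prod))}.ncard : ℝ) ≤ ε * X) ∧
    ∃ e₀ : ℕ, ∀ L : (Fin d → Fin n) → Fin n, IsHyper L →
      (∀ (G : Type) [Group G] [Finite G],
        IsHyper (fun x : Fin d → Fin n × G => (L (fun k => (x k).1),
          (List.ofFn (fun k => (x k).2)).prod))) ∧
      (∀ (G : Type) [Group G] [Finite G] (p e : ℕ), Group.IsSolvable G →
        Odd (Nat.card G) → p.Prime → p ∣ Nat.card G → e₀ ≤ e → e ∣ p - 1 →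
        64 * e ^ 6 < p →
        HasTransversalH (fun x : Fin d → Fin n × G => (L (fun k => (x k).1),
          (List.ofFn (fun k => (x k).2)).prod))) ∧
      (∀ (F G : Type) [Field F] [Finite F] [Group G] [Finite G] (N : Subgroup G) [N.Normal]
        (K : Subgroup (G ⧸ N)) [K.Normal] (e : ℕ),
        Nonempty (K ≃* Multiplicative F) → e₀ ≤ e → e ∣ Nat.card F - 1 →
        64 * e ^ 6 < Nat.card F →
        HasTransversal (fun x y : N => x * y) →
        HasTransversal (fun x y : (G ⧸ N) ⧸ K => x * y) →
        HasTransversalH (fun x : Fin d → Fin n × G => (L (fun k => (x k).1),
          (List.ofFn (fun k => (x k).2)).prod))) := by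
  obtain ⟨h1, e₀, h2⟩ := mainS d n hd (Or.inr hn)
  have hdo : ¬ Odd d := Nat.not_odd_iff_even.2 hde
  simp only [hdo, false_or] at h1
  exact ⟨h1, e₀, fun L hL => ⟨(h2 L hL).1,
    fun G _ _ p e hs ho => (h2 L hL).2.1 G p e hs (Or.inr ho),
    fun F G _ _ _ _ N _ K _ e a b c f g i => (h2 L hL).2.2 F G N K e a b c f (Or.inr ⟨g, i⟩)⟩⟩

end Pool.Agent.Results.MP_356f68_co.SolvableProducts
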